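import Pool.Agent.Helper37_UTI.Top
import Pool.Agent.Helper47_UTR.Fin

/-!
# Hypergraphs built by leaves and last vertices; interval hypergraphs (problem MP_3b0ba7_pr)
-/

open Finset

namespace Pool.Agent.UTI

open Pool.Agent.UTR Pool.Agent.Helper64_FR

variable {n : ℕ}

theorem Bld.nonempty {w : Finset (Fin n) → ℝ} {S : Finset (Fin n)} (h : Bld w S) : S.Nonempty := by
  cases h with
  | base i => exact Finset.singleton_nonempty i
  | leaf S l _ _ _ => exact Finset.insert_nonempty l S
  | top S l _ _ _ => exact Finset.insert_nonempty l S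

/-- splitting off the blocks which contain `U` -/
theorem split_w (w : Finset (Fin n) → ℝ) (U S : Finset (Fin n)) (hS : S ⊆ U) (y : Fin n → ℝ) :
    ∑ B : Finset (Fin n), w B * vr (B ∩ S) y =
      ∑ B : Finset (Fin n), (if U ⊆ B then 0 else w B) * vr (B ∩ S) y +
        (∑ B : Finset (Fin n), if U ⊆ B then w B else 0) * vr S y := by
  rw [Finset.sum_mul, ← Finset.sum_add_distrib]
  refine Finset.sum_congr rfl fun B _ => ?_
  by_cases h : U ⊆ B
  · rw [if_pos h, if_pos h, Finset.inter_eq_right.mpr (hS.trans h)]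
    ring
  · rw [if_neg h, if_neg h]
    ring

theorem leafW_step {w : Finset (Fin n) → ℝ} (hw : ∀ B, 0 ≤ w B) {S : Finset (Fin n)} {l : Fin n}
    (hl : l ∉ S) (hL : LeafW w S l) {μ : ℝ} (h : OneOn w (insert l S) μ) : OneOn w S μ := by
  set U := insert l S with hU
  set w' : Finset (Fin n) → ℝ := fun B => if U ⊆ B then 0 else w B with hw'
  set c : ℝ := ∑ B : Finset (Fin n), if U ⊆ B then w B else 0 with hc
  have hw0 : ∀ B, 0 ≤ w' B := fun B => by
    show 0 ≤ if U ⊆ B then 0 else w B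
    by_cases h1 : U ⊆ B
    · rw [if_pos h1]
    · rw [if_neg h1]; exact hw B
  have hSU : S ⊆ U := Finset.subset_insert l S
  by_cases hμ : 0 ≤ μ - c
  · have h1 : OneOn w' U (μ - c) := by
      intro y
      have h2 := h y
      rw [split_w w U U (Finset.Subset.refl U) y] at h2
      show (μ - c) * vr U y ≤ ∑ B : Finset (Fin n), (if U ⊆ B then 0 else w B) * vr (B ∩ U) y
      linarith
    have hleaf : Leaf w' S l := by
      obtain ⟨B₀, hB₀⟩ := hL
      refine ⟨B₀, fun B hB hlB => ?_⟩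
      have h3 : ¬ U ⊆ B := fun h3 => hB (if_pos h3)
      have h4 : w B ≠ 0 := fun h4 => hB (by
        show (if U ⊆ B then 0 else w B) = 0
        rw [if_neg h3, h4])
      rcases hB₀ B h4 hlB with h5 | h5 | h5
      · exact Or.inl h5
      · exact Or.inr h5
      · exact absurd (Finset.inter_eq_right.mp h5) h3
    have h5 := H90.lef n w' S l hl hleaf (μ - c) hμ h1
    intro y
    have h6 := h5 y
    rw [split_w w U S hSU y]
    show μ * vr S y ≤ ∑ B : Finset (Fin n), w' B * vr (B ∩ S) y + c * vr S y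
    linarith
  · push Not at hμ
    intro y
    rw [split_w w U S hSU y]
    have h7 : 0 ≤ ∑ B : Finset (Fin n), w' B * vr (B ∩ S) y :=
      Finset.sum_nonneg fun B _ => mul_nonneg (hw0 B) (vr_nonneg _ _)
    have h8 : μ * vr S y ≤ c * vr S y := mul_le_mul_of_nonneg_right (by linarith) (vr_nonneg _ _)
    show μ * vr S y ≤ ∑ B : Finset (Fin n), w' B * vr (B ∩ S) y + c * vr S y
    linarith

theorem bld_chain {w : Finset (Fin n) → ℝ} (hw : ∀ B, 0 ≤ w B) {μ : ℝ} {S : Finset (Fin n)}
    (h : Bld w S) (h1 : OneOn w S μ) : Chain w μ S := by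
  induction h with
  | base i => exact Chain.base i
  | leaf S l hl _ hL ih => exact Chain.step S l hl (ih (leafW_step hw hl hL h1)) h1
  | top S l hl hB hT ih => exact Chain.step S l hl (ih (top_step hw hB.nonempty hl hT h1)) h1

/-- interval hypergraphs -/
theorem bld_interval {w : Finset (Fin n) → ℝ} {e : Fin n → ℕ} (he : Function.Injective e)
    (h : ∀ B, w B ≠ 0 → ∀ i ∈ B, ∀ k ∈ B, ∀ j, e i < e j → e j < e k → j ∈ B) :
    ∀ (m : ℕ) (S : Finset (Fin n)), S.card = m → S.Nonempty → Bld w S := by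
  intro m
  induction m with
  | zero =>
    intro S hS hne
    exact absurd (Finset.card_eq_zero.mp hS) hne.ne_empty
  | succ m ih =>
    intro S hS hne
    obtain ⟨l, hl, hmax⟩ := Finset.exists_max_image S e hne
    by_cases h1 : (S.erase l).Nonempty
    · have h2 := ih (S.erase l) (by rw [Finset.card_erase_of_mem hl, hS]; rfl) h1
      have h3 : l ∉ S.erase l := Finset.notMem_erase l S
      have h4 : Top w (S.erase l) l := by
        refine ⟨e, fun i hi => ?_, ?_⟩
        · have hiS := Finset.mem_of_mem_erase hi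
          exact lt_of_le_of_ne (hmax i hiS) fun he1 => (Finset.ne_of_mem_erase hi) (he he1)
        · intro B hB i hi k hk j hj hjB
          have hiB := (Finset.mem_inter.mp hi).1
          have hkB := (Finset.mem_inter.mp hk).1
          have hjk : e j ≠ e k := fun h5 => hjB (he h5 ▸ hkB)
          constructor
          · intro h5
            by_contra h6
            exact hjB (h B hB i hiB k hkB j h5 (lt_of_le_of_ne (not_lt.mp h6) hjk))
          · intro h5
            by_contra h6
            exact hjB (h B hB k hkB i hiB j (lt_of_le_of_ne (not_lt.mp h6) hjk.symm) h5)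
      have h5 := Bld.top (S.erase l) l h3 h2 h4
      rw [Finset.insert_erase hl] at h5
      exact h5
    · rw [Finset.not_nonempty_iff_eq_empty] at h1
      have h6 : S = {l} := by
        rw [← Finset.insert_erase hl, h1]
        rfl
      rw [h6]
      exact Bld.base l

theorem bld_main (n : ℕ) (hn : 2 ≤ n) (w : Finset (Fin n) → ℝ) (hw : ∀ B, 0 ≤ w B)
    (hp : Bld w Finset.univ) (α ρ : URep n) (hα : α.IsAdjoint) (hρ : ρ.Irred)
    (hnt : ¬ ∀ g : UU n, ρ.mat g = 1) : α.lamMin w ≤ ρ.lamMin w := by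
  obtain ⟨h1, _⟩ := H33.onu n hn α hα w hw
  exact H47.fin n hn w hw _ (bld_chain hw hp h1) ρ hρ hnt

/-- the theorem -/
theorem main (n : ℕ) (hn : 2 ≤ n) (w : Finset (Fin n) → ℝ) (hw : ∀ B, 0 ≤ w B)
    (α ρ : URep n) (hα : α.IsAdjoint) (hρ : ρ.Irred) (hnt : ¬ ∀ g : UU n, ρ.mat g = 1) :
    (∀ μ : ℝ, Chain w μ Finset.univ → μ ≤ ρ.lamMin w) ∧
    (Bld w Finset.univ → α.lamMin w ≤ ρ.lamMin w) ∧
    (∀ G : SimpleGraph (Fin n), G.IsAcyclic →
      (∀ B, w B ≠ 0 → 2 ≤ B.card → ∃ i j, G.Adj i j ∧ B = {i, j}) →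
      α.lamMin w ≤ ρ.lamMin w) ∧
    (∀ e : Fin n → ℕ, Function.Injective e →
      (∀ B, w B ≠ 0 → ∀ i ∈ B, ∀ k ∈ B, ∀ j, e i < e j → e j < e k → j ∈ B) →
      α.lamMin w ≤ ρ.lamMin w) := by
  have ht := H47.trees n hn w hw α ρ hα hρ hnt
  refine ⟨ht.1, fun hp => bld_main n hn w hw hp α ρ hα hρ hnt, ht.2.2, fun e he h => ?_⟩
  exact bld_main n hn w hw
    (bld_interval he h _ _ rfl ⟨⟨0, by omega⟩, Finset.mem_univ _⟩) α ρ hα hρ hnt

end Pool.Agent.UTI
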