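import Pool.Agent.UTR.Defs

/-!
# Hypergraphs built vertex by vertex (problem MP_3b0ba7_pr)
-/

open Finset

namespace Pool.Agent.UTI

variable {n : ℕ}

/-- every block of nonzero weight is a module of the weak order given by the rank `r` on `S`: a vertex
`j ∈ S` outside of the block `B` lies on the same side of all vertices of `B ∩ S`. If `r` is injective
on `S` this says that `B ∩ S` is an interval of the linear order given by `r`. -/
def Md (w : Finset (Fin n) → ℝ) (S : Finset (Fin n)) (r : Fin n → ℕ) : Prop :=
  ∀ B, w B ≠ 0 → ∀ i ∈ B ∩ S, ∀ k ∈ B ∩ S, ∀ j ∈ S, j ∉ B →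
    (r i < r j → r k < r j) ∧ (r j < r i → r j < r k)

/-- `l` is the last vertex of a weak order on `insert l S` (given by the rank `r`) of which all blocks
are modules -/
def Top (w : Finset (Fin n) → ℝ) (S : Finset (Fin n)) (l : Fin n) : Prop :=
  ∃ r : Fin n → ℕ, (∀ i ∈ S, r i < r l) ∧ Md w (insert l S) r

/-- in the trace on `insert l S` the vertex `l` lies in at most one block with at least two elements
besides the whole set `insert l S` -/
def LeafW (w : Finset (Fin n) → ℝ) (S : Finset (Fin n)) (l : Fin n) : Prop :=
  ∃ B₀ : Finset (Fin n), ∀ B : Finset (Fin n), w B ≠ 0 → l ∈ B →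
    B ∩ insert l S = {l} ∨ B ∩ insert l S = B₀ ∨ B ∩ insert l S = insert l S

/-- Hypergraphs which can be built vertex by vertex: in the trace on the vertices up to it the new
vertex is a leaf (`LeafW`) or the last vertex of a weak order of which all blocks are modules (`Top`).
Weighted forests (only `leaf` steps) and interval hypergraphs (only `top` steps) are examples. -/
inductive Bld (w : Finset (Fin n) → ℝ) : Finset (Fin n) → Prop
  | base (i : Fin n) : Bld w {i}
  | leaf (S : Finset (Fin n)) (l : Fin n) : l ∉ S → Bld w S → LeafW w S l → Bld w (insert l S)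
  | top (S : Finset (Fin n)) (l : Fin n) : l ∉ S → Bld w S → Top w S l → Bld w (insert l S)

end Pool.Agent.UTI
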