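import Pool.Agent.Helper37_UTI.Mon

/-!
# Monotone eigenfunctions, existence (problem MP_3b0ba7_pr)
-/

open Finset

namespace Pool.Agent.UTI

open Pool.Agent.UTR

variable {n : ℕ}

/-- monotone with respect to the weak order `r` on `S` -/
def Mo (S : Finset (Fin n)) (r : Fin n → ℕ) (y : Fin n → ℝ) : Prop :=
  ∀ i ∈ S, ∀ j ∈ S, r i < r j → y i ≤ y j

theorem ZS_add {S : Finset (Fin n)} {y z : Fin n → ℝ} (hy : ZS S y) (hz : ZS S z) (a b : ℝ) :
    ZS S (fun i => a * y i + b * z i) := by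
  refine ⟨fun i hi => ?_, ?_⟩
  · show a * y i + b * z i = 0
    rw [hy.1 i hi, hz.1 i hi]; ring
  · rw [Finset.sum_add_distrib, ← Finset.mul_sum, ← Finset.mul_sum, hy.2, hz.2]; ring

theorem ZS_Lg (w : Finset (Fin n) → ℝ) (S : Finset (Fin n)) (y : Fin n → ℝ) :
    ZS S (Lg w S y) := ⟨fun _ hi => Lg_off w S y hi, Lg_sum w S y⟩

theorem sq_quad (y z : Fin n → ℝ) (t : ℝ) :
    ∑ i, (1 * y i + t * z i) ^ 2 = ∑ i, y i ^ 2 + 2 * t * ∑ i, y i * z i + t ^ 2 * ∑ i, z i ^ 2 := by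
  rw [Finset.mul_sum, Finset.mul_sum, ← Finset.sum_add_distrib, ← Finset.sum_add_distrib]
  exact Finset.sum_congr rfl fun i _ => by ring

theorem en_smul (w : Finset (Fin n) → ℝ) (S : Finset (Fin n)) (y : Fin n → ℝ) (c : ℝ) :
    en w S (fun i => c * y i) (fun i => c * y i) = c ^ 2 * en w S y y := by
  have h := en_add_left w S y y (fun i => c * y i) c 0
  have h2 := en_add_left w S y y y c 0
  have e1 : (fun i => c * y i + 0 * y i) = fun i => c * y i := by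
    funext i; ring
  rw [e1] at h h2
  rw [h, en_comm w S y, h2]
  ring

theorem en_cont (w : Finset (Fin n) → ℝ) (S : Finset (Fin n)) :
    Continuous fun y : Fin n → ℝ => en w S y y := by
  have h : (fun y : Fin n → ℝ => en w S y y) =
      fun y => ∑ B : Finset (Fin n), w B * vr (B ∩ S) y := by
    funext y; exact en_self w S y
  rw [h]
  unfold vr
  fun_prop

theorem ZS_closed (S : Finset (Fin n)) : IsClosed {y : Fin n → ℝ | ZS S y} := by
  have h1 : {y : Fin n → ℝ | ZS S y} =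
      (⋂ i ∈ {i : Fin n | i ∉ S}, {y : Fin n → ℝ | y i = 0}) ∩ {y | ∑ i, y i = 0} := by
    ext y
    simp only [ZS, Set.mem_ofPred_eq, Set.mem_inter_iff, Set.mem_iInter]
  rw [h1]
  refine IsClosed.inter (isClosed_biInter fun i _ => isClosed_eq (by fun_prop) (by fun_prop))
    (isClosed_eq (by fun_prop) (by fun_prop))

/-- sets of functions with bounded square sum are bounded -/
theorem bdd_sq {K : Set (Fin n → ℝ)} {c : ℝ} (h : ∀ y ∈ K, ∑ i, y i ^ 2 ≤ c) :
    Bornology.IsBounded K := by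
  refine (Metric.isBounded_closedBall (x := (0 : Fin n → ℝ)) (r := Real.sqrt (|c|))).subset ?_
  intro y hy
  rw [mem_closedBall_zero_iff, pi_norm_le_iff_of_nonneg (Real.sqrt_nonneg _)]
  intro i
  rw [Real.norm_eq_abs]
  apply Real.le_sqrt_of_sq_le
  rw [sq_abs]
  calc y i ^ 2 ≤ ∑ j, y j ^ 2 := Finset.single_le_sum (f := fun j => y j ^ 2)
        (fun j _ => sq_nonneg _) (Finset.mem_univ i)
    _ ≤ c := h y hy
    _ ≤ |c| := le_abs_self c

theorem gap_exists (w : Finset (Fin n) → ℝ) (S : Finset (Fin n)) (hne : ∃ y, ZS S y ∧ y ≠ 0) :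
    ∃ (μ' : ℝ) (v : Fin n → ℝ), ZS S v ∧ ∑ i, v i ^ 2 = 1 ∧ en w S v v = μ' ∧
      ∀ y, ZS S y → μ' * ∑ i, y i ^ 2 ≤ en w S y y := by
  set K : Set (Fin n → ℝ) := {y | ZS S y} ∩ {y | ∑ i, y i ^ 2 = 1} with hK
  have hcl : IsClosed K := (ZS_closed S).inter (isClosed_eq (by fun_prop) (by fun_prop))
  have hbd : Bornology.IsBounded K := bdd_sq (c := 1) fun y hy => le_of_eq hy.2
  have hcp : IsCompact K := Metric.isCompact_of_isClosed_isBounded hcl hbd
  have nrm : ∀ y, ZS S y → y ≠ 0 → 0 < ∑ i, y i ^ 2 ∧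
      (fun i => (Real.sqrt (∑ i, y i ^ 2))⁻¹ * y i) ∈ K := by
    intro y hy h0
    have hp : 0 < ∑ i, y i ^ 2 := by
      obtain ⟨i, hi⟩ := Function.ne_iff.mp h0
      exact Finset.sum_pos' (fun j _ => sq_nonneg _) ⟨i, Finset.mem_univ i, by
        have : y i ≠ 0 := hi
        positivity⟩
    refine ⟨hp, ?_, ?_⟩
    · have := ZS_add hy hy (Real.sqrt (∑ i, y i ^ 2))⁻¹ 0
      have e : (fun i => (Real.sqrt (∑ i, y i ^ 2))⁻¹ * y i + 0 * y i) =
          fun i => (Real.sqrt (∑ i, y i ^ 2))⁻¹ * y i := by funext i; ring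
      rw [e] at this
      exact this
    · show ∑ i, ((Real.sqrt (∑ i, y i ^ 2))⁻¹ * y i) ^ 2 = 1
      simp_rw [mul_pow]
      rw [← Finset.mul_sum, inv_pow, Real.sq_sqrt hp.le, inv_mul_cancel₀ hp.ne']
  obtain ⟨y0, hy0, hn0⟩ := hne
  obtain ⟨v, hv, hmin⟩ := hcp.exists_isMinOn ⟨_, (nrm y0 hy0 hn0).2⟩ (en_cont w S).continuousOn
  refine ⟨en w S v v, v, hv.1, hv.2, rfl, fun y hy => ?_⟩
  by_cases h0 : y = 0
  · rw [h0]
    have e : en w S (0 : Fin n → ℝ) 0 = 0 := by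
      unfold en; simp
    rw [e]; simp
  · obtain ⟨hp, hk⟩ := nrm y hy h0
    have h1 : en w S v v ≤ en w S (fun i => (Real.sqrt (∑ i, y i ^ 2))⁻¹ * y i)
      (fun i => (Real.sqrt (∑ i, y i ^ 2))⁻¹ * y i) := hmin hk
    rw [en_smul, inv_pow, Real.sq_sqrt hp.le] at h1
    calc en w S v v * ∑ i, y i ^ 2 ≤ ((∑ i, y i ^ 2)⁻¹ * en w S y y) * ∑ i, y i ^ 2 :=
          mul_le_mul_of_nonneg_right h1 hp.le
      _ = en w S y y := by field_simp

theorem eig_of_min {w : Finset (Fin n) → ℝ} {S : Finset (Fin n)} {μ' : ℝ}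
    (hm : ∀ y, ZS S y → μ' * ∑ i, y i ^ 2 ≤ en w S y y) {v : Fin n → ℝ} (hv : ZS S v)
    (h : en w S v v ≤ μ' * ∑ i, v i ^ 2) (i : Fin n) : Lg w S v i = μ' * v i := by
  have h1 : ∀ z, ZS S z → en w S v z = μ' * ∑ i, v i * z i := by
    intro z hz
    have h2 : en w S v z - μ' * ∑ i, v i * z i = 0 := by
      refine lin_zero (c := en w S z z - μ' * ∑ i, z i ^ 2) fun t => ?_
      have h3 := hm _ (ZS_add hv hz 1 t)
      rw [en_quad, sq_quad] at h3
      have h4 := hm v hv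
      nlinarith
    linarith
  have hd : ZS S (fun i => 1 * Lg w S v i + (-μ') * v i) := ZS_add (ZS_Lg w S v) hv 1 (-μ')
  have h5 := h1 _ hd
  have h6 : ∑ i, (1 * Lg w S v i + (-μ') * v i) ^ 2 = 0 := by
    have e : ∑ i, (1 * Lg w S v i + (-μ') * v i) ^ 2 =
        en w S v (fun i => 1 * Lg w S v i + (-μ') * v i) -
          μ' * ∑ i, v i * (1 * Lg w S v i + (-μ') * v i) := by
      unfold en
      rw [Finset.mul_sum, ← Finset.sum_sub_distrib]
      exact Finset.sum_congr rfl fun i _ => by ring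
    rw [e, h5, sub_self]
  have h7 := (Finset.sum_eq_zero_iff_of_nonneg (fun i _ => sq_nonneg _)).mp h6 i (Finset.mem_univ i)
  have h8 : 1 * Lg w S v i + (-μ') * v i = 0 := pow_eq_zero_iff (two_ne_zero) |>.mp h7
  linarith

end Pool.Agent.UTI
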