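import Pool.Agent.Helper37_UTI.Defs

/-!
# Monotone eigenfunctions (problem MP_3b0ba7_pr)
-/

open Finset

namespace Pool.Agent.UTI

open Pool.Agent.UTR

variable {n : ℕ}

/-- mean over `T` -/
noncomputable def mn (T : Finset (Fin n)) (g : Fin n → ℝ) : ℝ := (∑ i ∈ T, g i) / T.card

/-- the one-body generator of the trace on `S` -/
noncomputable def Lg (w : Finset (Fin n) → ℝ) (S : Finset (Fin n)) (y : Fin n → ℝ) (i : Fin n) : ℝ :=
  ∑ B : Finset (Fin n), w B * (if i ∈ B ∩ S then y i - mn (B ∩ S) y else 0)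

/-- the bilinear form of the generator -/
noncomputable def en (w : Finset (Fin n) → ℝ) (S : Finset (Fin n)) (y z : Fin n → ℝ) : ℝ :=
  ∑ i, Lg w S y i * z i

/-- functions supported on `S` with sum zero -/
def ZS (S : Finset (Fin n)) (y : Fin n → ℝ) : Prop := (∀ i, i ∉ S → y i = 0) ∧ ∑ i, y i = 0

theorem mn_le {T : Finset (Fin n)} {g : Fin n → ℝ} {c : ℝ} (hT : T.Nonempty)
    (h : ∀ i ∈ T, g i ≤ c) : mn T g ≤ c := by
  unfold mn
  have hc : (0 : ℝ) < T.card := by exact_mod_cast hT.card_pos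
  rw [div_le_iff₀ hc]
  calc ∑ i ∈ T, g i ≤ ∑ _i ∈ T, c := Finset.sum_le_sum h
    _ = c * T.card := by rw [Finset.sum_const, nsmul_eq_mul, mul_comm]

theorem le_mn {T : Finset (Fin n)} {g : Fin n → ℝ} {c : ℝ} (hT : T.Nonempty)
    (h : ∀ i ∈ T, c ≤ g i) : c ≤ mn T g := by
  unfold mn
  have hc : (0 : ℝ) < T.card := by exact_mod_cast hT.card_pos
  rw [le_div_iff₀ hc]
  calc c * T.card = ∑ _i ∈ T, c := by rw [Finset.sum_const, nsmul_eq_mul, mul_comm]
    _ ≤ ∑ i ∈ T, g i := Finset.sum_le_sum h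

/-- the form written block by block -/
theorem en_eq (w : Finset (Fin n) → ℝ) (S : Finset (Fin n)) (y z : Fin n → ℝ) :
    en w S y z = ∑ B : Finset (Fin n), w B * (∑ i ∈ B ∩ S, y i * z i
      - (∑ i ∈ B ∩ S, y i) * (∑ i ∈ B ∩ S, z i) / (B ∩ S).card) := by
  have h0 : ∀ i, Lg w S y i * z i = ∑ B : Finset (Fin n),
      w B * ((if i ∈ B ∩ S then y i - mn (B ∩ S) y else 0) * z i) := by
    intro i
    unfold Lg
    rw [Finset.sum_mul]
    exact Finset.sum_congr rfl fun B _ => by ring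
  unfold en
  rw [Finset.sum_congr rfl fun i _ => h0 i, Finset.sum_comm]
  refine Finset.sum_congr rfl fun B _ => ?_
  rw [← Finset.mul_sum]
  congr 1
  have h1 : ∀ i, (if i ∈ B ∩ S then y i - mn (B ∩ S) y else 0) * z i =
      if i ∈ B ∩ S then (y i - mn (B ∩ S) y) * z i else 0 := by
    intro i
    by_cases h : i ∈ B ∩ S
    · rw [if_pos h, if_pos h]
    · rw [if_neg h, if_neg h, zero_mul]
  simp_rw [h1]
  rw [Finset.sum_ite_mem, Finset.univ_inter]
  have h2 : ∑ i ∈ B ∩ S, (y i - mn (B ∩ S) y) * z i =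
      ∑ i ∈ B ∩ S, y i * z i - mn (B ∩ S) y * ∑ i ∈ B ∩ S, z i := by
    rw [Finset.mul_sum, ← Finset.sum_sub_distrib]
    exact Finset.sum_congr rfl fun i _ => by ring
  rw [h2]
  unfold mn
  ring

theorem en_comm (w : Finset (Fin n) → ℝ) (S : Finset (Fin n)) (y z : Fin n → ℝ) :
    en w S y z = en w S z y := by
  rw [en_eq, en_eq]
  refine Finset.sum_congr rfl fun B _ => ?_
  congr 2
  · exact Finset.sum_congr rfl fun i _ => mul_comm _ _
  · rw [mul_comm (∑ i ∈ B ∩ S, y i)]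

theorem en_self (w : Finset (Fin n) → ℝ) (S : Finset (Fin n)) (y : Fin n → ℝ) :
    en w S y y = ∑ B : Finset (Fin n), w B * vr (B ∩ S) y := by
  rw [en_eq]
  refine Finset.sum_congr rfl fun B _ => ?_
  unfold vr
  congr 2
  · exact Finset.sum_congr rfl fun i _ => (sq _).symm
  · rw [sq]

theorem mn_add (T : Finset (Fin n)) (y z : Fin n → ℝ) (a b : ℝ) :
    mn T (fun i => a * y i + b * z i) = a * mn T y + b * mn T z := by
  unfold mn
  rw [Finset.sum_add_distrib, ← Finset.mul_sum, ← Finset.mul_sum]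
  ring

theorem Lg_add (w : Finset (Fin n) → ℝ) (S : Finset (Fin n)) (y z : Fin n → ℝ) (a b : ℝ)
    (i : Fin n) :
    Lg w S (fun i => a * y i + b * z i) i = a * Lg w S y i + b * Lg w S z i := by
  unfold Lg
  rw [Finset.mul_sum, Finset.mul_sum, ← Finset.sum_add_distrib]
  refine Finset.sum_congr rfl fun B _ => ?_
  rw [mn_add]
  by_cases h : i ∈ B ∩ S
  · rw [if_pos h, if_pos h, if_pos h]; ring
  · rw [if_neg h, if_neg h, if_neg h]; ring

theorem en_add_left (w : Finset (Fin n) → ℝ) (S : Finset (Fin n)) (y z u : Fin n → ℝ) (a b : ℝ) :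
    en w S (fun i => a * y i + b * z i) u = a * en w S y u + b * en w S z u := by
  unfold en
  simp_rw [Lg_add]
  rw [Finset.mul_sum, Finset.mul_sum, ← Finset.sum_add_distrib]
  exact Finset.sum_congr rfl fun i _ => by ring

theorem en_quad (w : Finset (Fin n) → ℝ) (S : Finset (Fin n)) (y z : Fin n → ℝ) (t : ℝ) :
    en w S (fun i => 1 * y i + t * z i) (fun i => 1 * y i + t * z i) =
      en w S y y + 2 * t * en w S y z + t ^ 2 * en w S z z := by
  rw [en_add_left, en_comm w S y, en_comm w S z, en_add_left, en_add_left, en_comm w S z y]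
  ring

theorem Lg_off (w : Finset (Fin n) → ℝ) (S : Finset (Fin n)) (y : Fin n → ℝ) {i : Fin n}
    (hi : i ∉ S) : Lg w S y i = 0 := by
  unfold Lg
  refine Finset.sum_eq_zero fun B _ => ?_
  rw [if_neg (fun h => hi (Finset.mem_inter.mp h).2), mul_zero]

theorem Lg_sum (w : Finset (Fin n) → ℝ) (S : Finset (Fin n)) (y : Fin n → ℝ) :
    ∑ i, Lg w S y i = 0 := by
  have h : ∑ i, Lg w S y i = en w S y (fun _ => 1) := by
    unfold en
    exact Finset.sum_congr rfl fun i _ => (mul_one _).symm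
  rw [h, en_eq]
  refine Finset.sum_eq_zero fun B _ => ?_
  rcases (B ∩ S).eq_empty_or_nonempty with he | hne
  · rw [he]; simp
  · have hc : ((B ∩ S).card : ℝ) ≠ 0 := by exact_mod_cast hne.card_pos.ne'
    simp only [mul_one, Finset.sum_const, nsmul_eq_mul]
    rw [mul_div_assoc, div_self hc]
    ring

/-- a quadratic polynomial which is nonnegative and vanishes at `0` -/
theorem lin_zero {b c : ℝ} (h : ∀ t : ℝ, 0 ≤ 2 * t * b + t ^ 2 * c) : b = 0 := by
  have hc : 0 ≤ c := by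
    have h1 := h 1
    have h2 := h (-1)
    nlinarith
  have h3 := h (-b / (c + 1))
  have hc1 : (0 : ℝ) < c + 1 := by linarith
  have h4 : 2 * (-b / (c + 1)) * b + (-b / (c + 1)) ^ 2 * c = -(b ^ 2 * (c + 2)) / (c + 1) ^ 2 := by
    field_simp
    ring
  rw [h4] at h3
  have h5 : -(b ^ 2 * (c + 2)) = (-(b ^ 2 * (c + 2)) / (c + 1) ^ 2) * (c + 1) ^ 2 := by
    field_simp
  have h6 : 0 ≤ -(b ^ 2 * (c + 2)) := by
    rw [h5]; exact mul_nonneg h3 (by positivity)
  have h7 : b ^ 2 ≤ 0 := by nlinarith [sq_nonneg b]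
  exact pow_eq_zero_iff (two_ne_zero) |>.mp (le_antisymm h7 (sq_nonneg b))

theorem lin_nonneg {b c s : ℝ} (hs : 0 < s) (h : ∀ t : ℝ, 0 ≤ t → t ≤ s → 0 ≤ 2 * t * b + t ^ 2 * c) :
    0 ≤ b := by
  by_contra hb
  push Not at hb
  set t := min s (-b / (|c| + 1)) with ht
  have hc1 : (0 : ℝ) < |c| + 1 := by positivity
  have ht0 : 0 < t := lt_min hs (div_pos (by linarith) hc1)
  have h1 := h t ht0.le (min_le_left _ _)
  have h2 : t * (|c| + 1) ≤ -b := by
    have := min_le_right s (-b / (|c| + 1))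
    rw [← ht] at this
    calc t * (|c| + 1) ≤ (-b / (|c| + 1)) * (|c| + 1) := mul_le_mul_of_nonneg_right this hc1.le
      _ = -b := by field_simp
  have h3 : t ^ 2 * c ≤ t * (t * |c|) := by
    nlinarith [le_abs_self c, sq_nonneg t]
  have h4 : t * (t * |c|) ≤ t * (-b) := mul_le_mul_of_nonneg_left (by nlinarith) ht0.le
  nlinarith

end Pool.Agent.UTI
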