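import Pool.Agent.Helper37_UTI.Eig

/-!
# A monotone eigenfunction for the one-body gap (problem MP_3b0ba7_pr)
-/

open Finset

namespace Pool.Agent.UTI

open Pool.Agent.UTR

variable {n : ℕ}

theorem vr_nonneg (T : Finset (Fin n)) (y : Fin n → ℝ) : 0 ≤ vr T y := by
  unfold vr
  rcases T.eq_empty_or_nonempty with he | hne
  · rw [he]; simp
  · have hc : (0 : ℝ) < T.card := by exact_mod_cast hne.card_pos
    rw [sub_nonneg, div_le_iff₀ hc, mul_comm]
    exact sq_sum_le_card_mul_sum_sq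

theorem en_nonneg {w : Finset (Fin n) → ℝ} (hw : ∀ B, 0 ≤ w B) (S : Finset (Fin n))
    (y : Fin n → ℝ) : 0 ≤ en w S y y := by
  rw [en_self]
  exact Finset.sum_nonneg fun B _ => mul_nonneg (hw B) (vr_nonneg _ _)

theorem Mo_Lg {w : Finset (Fin n) → ℝ} (hw : ∀ B, 0 ≤ w B) {S : Finset (Fin n)} {r : Fin n → ℕ}
    (hmd : Md w S r) {y : Fin n → ℝ} (hy : Mo S r y) {i j : Fin n} (hi : i ∈ S) (hj : j ∈ S)
    (hij : r i < r j) :
    Lg w S y j - Lg w S y i ≤ (∑ B : Finset (Fin n), w B) * (y j - y i) := by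
  unfold Lg
  rw [← Finset.sum_sub_distrib, Finset.sum_mul]
  refine Finset.sum_le_sum fun B _ => ?_
  rw [← mul_sub]
  by_cases hB : w B = 0
  · rw [hB, zero_mul, zero_mul]
  refine mul_le_mul_of_nonneg_left ?_ (hw B)
  have hle : y i ≤ y j := hy i hi j hj hij
  by_cases h1 : i ∈ B
  · have hi1 : i ∈ B ∩ S := Finset.mem_inter.mpr ⟨h1, hi⟩
    rw [if_pos hi1]
    by_cases h2 : j ∈ B
    · have hj1 : j ∈ B ∩ S := Finset.mem_inter.mpr ⟨h2, hj⟩
      rw [if_pos hj1]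
      linarith
    · rw [if_neg (fun h => h2 (Finset.mem_inter.mp h).1)]
      have h3 : mn (B ∩ S) y ≤ y j := mn_le ⟨i, hi1⟩ fun k hk =>
        hy k (Finset.mem_inter.mp hk).2 j hj ((hmd B hB i hi1 k hk j hj h2).1 hij)
      linarith
  · rw [if_neg (fun h => h1 (Finset.mem_inter.mp h).1)]
    by_cases h2 : j ∈ B
    · have hj1 : j ∈ B ∩ S := Finset.mem_inter.mpr ⟨h2, hj⟩
      rw [if_pos hj1]
      have h3 : y i ≤ mn (B ∩ S) y := le_mn ⟨j, hj1⟩ fun k hk =>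
        hy i hi k (Finset.mem_inter.mp hk).2 ((hmd B hB j hj1 k hk i hi h1).2 hij)
      linarith
    · rw [if_neg (fun h => h2 (Finset.mem_inter.mp h).1)]
      linarith

theorem Mo_step {w : Finset (Fin n) → ℝ} (hw : ∀ B, 0 ≤ w B) {S : Finset (Fin n)} {r : Fin n → ℕ}
    (hmd : Md w S r) {y : Fin n → ℝ} (hy : Mo S r y) {s μ' : ℝ} (hs : 0 ≤ s) (hμ : 0 ≤ μ')
    (hsw : s * ∑ B : Finset (Fin n), w B ≤ 1) :
    Mo S r (fun i => 1 * y i + s * (μ' * y i + (-1) * Lg w S y i)) := by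
  intro i hi j hj hij
  have h1 := Mo_Lg hw hmd hy hi hj hij
  have h2 := hy i hi j hj hij
  have h3 : s * (Lg w S y j - Lg w S y i) ≤ s * ((∑ B : Finset (Fin n), w B) * (y j - y i)) :=
    mul_le_mul_of_nonneg_left h1 hs
  have h4 : s * ((∑ B : Finset (Fin n), w B) * (y j - y i)) ≤ 1 * (y j - y i) := by
    rw [← mul_assoc]
    exact mul_le_mul_of_nonneg_right hsw (by linarith)
  have h5 : 0 ≤ s * μ' * (y j - y i) := mul_nonneg (mul_nonneg hs hμ) (by linarith)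
  show 1 * y i + s * (μ' * y i + (-1) * Lg w S y i) ≤ 1 * y j + s * (μ' * y j + (-1) * Lg w S y j)
  nlinarith

theorem Mo_closed (S : Finset (Fin n)) (r : Fin n → ℕ) : IsClosed {y : Fin n → ℝ | Mo S r y} := by
  have h1 : {y : Fin n → ℝ | Mo S r y} =
      ⋂ i ∈ {i : Fin n | i ∈ S}, ⋂ j ∈ {j : Fin n | j ∈ S}, ⋂ _ : r i < r j,
        {y : Fin n → ℝ | y i ≤ y j} := by
    ext y
    simp only [Mo, Set.mem_ofPred_eq, Set.mem_iInter]
  rw [h1]
  exact isClosed_biInter fun i _ => isClosed_biInter fun j _ => isClosed_iInter fun _ =>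
    isClosed_le (by fun_prop) (by fun_prop)

theorem mono_eig {w : Finset (Fin n) → ℝ} (hw : ∀ B, 0 ≤ w B) {S : Finset (Fin n)} {r : Fin n → ℕ}
    (hmd : Md w S r) (hne : ∃ y, ZS S y ∧ y ≠ 0) :
    ∃ (μ' : ℝ) (g : Fin n → ℝ), 0 ≤ μ' ∧ ZS S g ∧ g ≠ 0 ∧ Mo S r g ∧
      (∀ i, Lg w S g i = μ' * g i) ∧ ∀ y, ZS S y → μ' * ∑ i, y i ^ 2 ≤ en w S y y := by
  obtain ⟨μ', v0, hv0, hn0, he0, hm⟩ := gap_exists w S hne
  have hμ : 0 ≤ μ' := by rw [← he0]; exact en_nonneg hw S v0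
  have hSne : S.Nonempty := by
    obtain ⟨y, hy, h0⟩ := hne
    obtain ⟨i, hi⟩ := Function.ne_iff.mp h0
    by_contra hS
    exact hi (hy.1 i (fun h => hS ⟨i, h⟩))
  have hcS : (S.card : ℝ) ≠ 0 := by exact_mod_cast hSne.card_pos.ne'
  -- a strictly monotone function
  set x : Fin n → ℝ := fun i => if i ∈ S then (r i : ℝ) - mn S (fun i => (r i : ℝ)) else 0 with hx
  have hxZ : ZS S x := by
    refine ⟨fun i hi => if_neg hi, ?_⟩
    rw [hx, Finset.sum_ite_mem, Finset.univ_inter, Finset.sum_sub_distrib, Finset.sum_const,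
      nsmul_eq_mul]
    unfold mn
    field_simp
    ring
  have hxM : ∀ i ∈ S, ∀ j ∈ S, r i < r j → x i + 1 ≤ x j := by
    intro i hi j hj hij
    rw [hx]
    show (if i ∈ S then _ else _) + 1 ≤ if j ∈ S then _ else _
    rw [if_pos hi, if_pos hj]
    have : (r i : ℝ) + 1 ≤ r j := by exact_mod_cast hij
    linarith
  -- the eigenvector with the right sign
  obtain ⟨v, hv, hn, he, hxv⟩ : ∃ v : Fin n → ℝ, ZS S v ∧ ∑ i, v i ^ 2 = 1 ∧ en w S v v = μ' ∧
      0 ≤ ∑ i, x i * v i := by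
    by_cases h : 0 ≤ ∑ i, x i * v0 i
    · exact ⟨v0, hv0, hn0, he0, h⟩
    · push Not at h
      refine ⟨fun i => (-1) * v0 i, ?_, ?_, ?_, ?_⟩
      · have := ZS_add hv0 hv0 (-1) 0
        have e : (fun i => (-1) * v0 i + 0 * v0 i) = fun i => (-1) * v0 i := by funext i; ring
        rw [e] at this
        exact this
      · have e : ∑ i, ((-1) * v0 i) ^ 2 = ∑ i, v0 i ^ 2 :=
          Finset.sum_congr rfl fun i _ => by ring
        rw [e, hn0]
      · rw [en_smul, he0]; ring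
      · have e : ∑ i, x i * ((-1) * v0 i) = -∑ i, x i * v0 i := by
          rw [← Finset.sum_neg_distrib]
          exact Finset.sum_congr rfl fun i _ => by ring
        rw [e]; linarith
  have hvL : ∀ i, Lg w S v i = μ' * v i := eig_of_min hm hv (by rw [he, hn, mul_one])
  have hv1 : ∀ i, |v i| ≤ 1 := by
    intro i
    rw [← abs_one, ← sq_le_sq, one_pow, ← hn]
    exact Finset.single_le_sum (f := fun j => v j ^ 2) (fun j _ => sq_nonneg _) (Finset.mem_univ i)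
  set a0 : ℝ := ∑ i, x i * v i + 1 / 2 with ha0
  have ha0p : 0 < a0 := by linarith
  set f1 : Fin n → ℝ := fun i => a0⁻¹ * x i + (a0⁻¹ * (1 / 2)) * v i with hf1
  have hf1Z : ZS S f1 := ZS_add hxZ hv _ _
  have hf1M : Mo S r f1 := by
    intro i hi j hj hij
    have h1 := hxM i hi j hj hij
    have h2 := abs_le.mp (hv1 i)
    have h3 := abs_le.mp (hv1 j)
    have h4 : 0 ≤ a0⁻¹ * ((x j - x i) + (1 / 2) * (v j - v i)) :=
      mul_nonneg (inv_nonneg.mpr ha0p.le) (by linarith [h2.1, h2.2, h3.1, h3.2])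
    show a0⁻¹ * x i + (a0⁻¹ * (1 / 2)) * v i ≤ a0⁻¹ * x j + (a0⁻¹ * (1 / 2)) * v j
    nlinarith
  have hf1v : ∑ i, f1 i * v i = 1 := by
    have e : ∑ i, f1 i * v i = a0⁻¹ * (∑ i, x i * v i + (1 / 2) * ∑ i, v i ^ 2) := by
      rw [Finset.mul_sum, ← Finset.sum_add_distrib, Finset.mul_sum]
      exact Finset.sum_congr rfl fun i _ => by rw [hf1]; ring
    rw [e, hn, mul_one, ← ha0, inv_mul_cancel₀ ha0p.ne']
  set K : Set (Fin n → ℝ) := (({y | ZS S y} ∩ {y | Mo S r y}) ∩ {y | ∑ i, y i * v i = 1}) ∩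
    {y | ∑ i, y i ^ 2 ≤ ∑ i, f1 i ^ 2} with hK
  have hcl : IsClosed K := (((ZS_closed S).inter (Mo_closed S r)).inter
    (isClosed_eq (by fun_prop) (by fun_prop))).inter (isClosed_le (by fun_prop) (by fun_prop))
  have hcp : IsCompact K := Metric.isCompact_of_isClosed_isBounded hcl (bdd_sq fun y hy => hy.2)
  obtain ⟨g, hg, hmin⟩ := hcp.exists_isMinOn (f := fun y : Fin n → ℝ => ∑ i, y i ^ 2)
    ⟨f1, ⟨⟨hf1Z, hf1M⟩, hf1v⟩, le_refl (∑ i, f1 i ^ 2)⟩ (Continuous.continuousOn (by fun_prop))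
  obtain ⟨⟨⟨hgZ, hgM⟩, hgv⟩, hgb⟩ := hg
  have hgZ' : ZS S g := hgZ
  have hgM' : Mo S r g := hgM
  have hgv' : ∑ i, g i * v i = 1 := hgv
  have hgb' : ∑ i, g i ^ 2 ≤ ∑ i, f1 i ^ 2 := hgb
  have hmin' : ∀ f : Fin n → ℝ, ZS S f → Mo S r f → ∑ i, f i * v i = 1 →
      ∑ i, g i ^ 2 ≤ ∑ i, f i ^ 2 := by
    intro f h1 h2 h3
    by_cases h4 : ∑ i, f i ^ 2 ≤ ∑ i, f1 i ^ 2
    · exact hmin ⟨⟨⟨h1, h2⟩, h3⟩, h4⟩
    · push Not at h4
      linarith
  have hW : 0 ≤ ∑ B : Finset (Fin n), w B := Finset.sum_nonneg fun B _ => hw B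
  have hW1 : 0 < ∑ B : Finset (Fin n), w B + 1 := by linarith
  have hdZ : ZS S (fun i => μ' * g i + (-1) * Lg w S g i) := ZS_add hgZ' (ZS_Lg w S g) _ _
  have hgv2 : ∑ i, (μ' * g i + (-1) * Lg w S g i) * v i = 0 := by
    have e1 : en w S g v = μ' := by
      rw [en_comm]
      unfold en
      have : ∑ i, Lg w S v i * g i = μ' * ∑ i, g i * v i := by
        rw [Finset.mul_sum]
        exact Finset.sum_congr rfl fun i _ => by rw [hvL i]; ring
      rw [this, hgv', mul_one]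
    have e2 : ∑ i, (μ' * g i + (-1) * Lg w S g i) * v i = μ' * ∑ i, g i * v i - en w S g v := by
      unfold en
      rw [Finset.mul_sum, ← Finset.sum_sub_distrib]
      exact Finset.sum_congr rfl fun i _ => by ring
    rw [e2, hgv', e1]; ring
  have hkey : 0 ≤ ∑ i, g i * (μ' * g i + (-1) * Lg w S g i) := by
    refine lin_nonneg (s := (∑ B : Finset (Fin n), w B + 1)⁻¹)
      (c := ∑ i, (μ' * g i + (-1) * Lg w S g i) ^ 2) (inv_pos.mpr hW1) fun t ht0 ht1 => ?_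
    have htw : t * ∑ B : Finset (Fin n), w B ≤ 1 := by
      calc t * ∑ B : Finset (Fin n), w B ≤ t * (∑ B : Finset (Fin n), w B + 1) :=
            mul_le_mul_of_nonneg_left (by linarith) ht0
        _ ≤ (∑ B : Finset (Fin n), w B + 1)⁻¹ * (∑ B : Finset (Fin n), w B + 1) :=
            mul_le_mul_of_nonneg_right ht1 hW1.le
        _ = 1 := inv_mul_cancel₀ hW1.ne'
    have h1 := hmin' _ (ZS_add hgZ' hdZ 1 t) (Mo_step hw hmd hgM' ht0 hμ htw) (by
      have e : ∑ i, (1 * g i + t * (μ' * g i + (-1) * Lg w S g i)) * v i =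
          ∑ i, g i * v i + t * ∑ i, (μ' * g i + (-1) * Lg w S g i) * v i := by
        rw [Finset.mul_sum, ← Finset.sum_add_distrib]
        exact Finset.sum_congr rfl fun i _ => by ring
      rw [e, hgv', hgv2]; ring)
    rw [sq_quad] at h1
    linarith
  have hkey2 : en w S g g ≤ μ' * ∑ i, g i ^ 2 := by
    have e : ∑ i, g i * (μ' * g i + (-1) * Lg w S g i) = μ' * ∑ i, g i ^ 2 - en w S g g := by
      unfold en
      rw [Finset.mul_sum, ← Finset.sum_sub_distrib]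
      exact Finset.sum_congr rfl fun i _ => by ring
    rw [e] at hkey
    linarith
  refine ⟨μ', g, hμ, hgZ', ?_, hgM', eig_of_min hm hgZ' hkey2, hm⟩
  intro h0
  rw [h0] at hgv'
  simp at hgv'

end Pool.Agent.UTI
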