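import Pool.Agent.Helper37_UTI.Per

/-!
# Removal of the last vertex of an interval hypergraph (problem MP_3b0ba7_pr)
-/

open Finset

namespace Pool.Agent.UTI

open Pool.Agent.UTR

variable {n : ℕ}

theorem vr_eq_sub {S : Finset (Fin n)} (T : Finset (Fin n)) (hT : T ⊆ S)
    (y : Fin n → ℝ) (c : ℝ) :
    vr T (fun i => if i ∈ S then y i - c else 0) = vr T y := by
  unfold vr
  have h1 : ∀ i ∈ T, (if i ∈ S then y i - c else 0) = y i - c := fun i hi => if_pos (hT hi)
  have h2 : ∑ i ∈ T, (if i ∈ S then y i - c else 0) ^ 2 = ∑ i ∈ T, (y i - c) ^ 2 :=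
    Finset.sum_congr rfl fun i hi => by rw [h1 i hi]
  rw [h2, Finset.sum_congr rfl h1]
  rcases T.eq_empty_or_nonempty with he | hne
  · rw [he]; simp
  · have hc : (T.card : ℝ) ≠ 0 := by exact_mod_cast hne.card_pos.ne'
    have h3 : ∑ i ∈ T, (y i - c) ^ 2 =
        ∑ i ∈ T, y i ^ 2 - 2 * c * ∑ i ∈ T, y i + T.card * c ^ 2 := by
      have h4 : ∀ i ∈ T, (y i - c) ^ 2 = y i ^ 2 - 2 * c * y i + c ^ 2 := fun i _ => by ring
      rw [Finset.sum_congr rfl h4, Finset.sum_add_distrib, Finset.sum_sub_distrib,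
        ← Finset.mul_sum, Finset.sum_const, nsmul_eq_mul]
    have h5 : ∑ i ∈ T, (y i - c) = ∑ i ∈ T, y i - T.card * c := by
      rw [Finset.sum_sub_distrib, Finset.sum_const, nsmul_eq_mul]
    rw [h3, h5]
    field_simp
    ring

/-- from functions of sum zero to all functions -/
theorem oneOn_of {w : Finset (Fin n) → ℝ} {S : Finset (Fin n)} (hS : S.Nonempty) {μ : ℝ}
    (h : ∀ y, ZS S y → μ * ∑ i, y i ^ 2 ≤ en w S y y) : OneOn w S μ := by
  intro y
  have hcS : (S.card : ℝ) ≠ 0 := by exact_mod_cast hS.card_pos.ne'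
  set z : Fin n → ℝ := fun i => if i ∈ S then y i - mn S y else 0 with hz
  have hzZ : ZS S z := by
    refine ⟨fun i hi => if_neg hi, ?_⟩
    rw [hz, Finset.sum_ite_mem, Finset.univ_inter, Finset.sum_sub_distrib, Finset.sum_const,
      nsmul_eq_mul]
    unfold mn
    field_simp
    ring
  have h1 := h z hzZ
  rw [en_self] at h1
  have h2 : ∀ B : Finset (Fin n), vr (B ∩ S) z = vr (B ∩ S) y := fun B =>
    vr_eq_sub _ Finset.inter_subset_right y _
  simp_rw [h2] at h1
  have h3 : ∑ i, z i ^ 2 = vr S y := by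
    rw [← vr_eq_sub S (Finset.Subset.refl S) y (mn S y)]
    unfold vr
    have h4 : ∑ i ∈ S, z i = 0 := by
      rw [← hzZ.2]
      exact Finset.sum_subset (Finset.subset_univ S) fun i _ hi => if_neg hi
    have h5 : ∑ i ∈ S, z i ^ 2 = ∑ i, z i ^ 2 :=
      Finset.sum_subset (Finset.subset_univ S) fun i _ hi => by
        rw [hz]; show (if i ∈ S then _ else (0 : ℝ)) ^ 2 = 0
        rw [if_neg hi]; ring
    show ∑ i, z i ^ 2 = ∑ i ∈ S, z i ^ 2 - (∑ i ∈ S, z i) ^ 2 / S.card
    rw [h4, h5]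
    ring
  rw [← h3]
  exact h1

/-- the energy of a block with a new vertex -/
theorem vr_insert {T : Finset (Fin n)} {l : Fin n} (hl : l ∉ T) {m : ℕ} (hm : T.card ≤ m)
    {g : Fin n → ℝ} {γ : ℝ} (h0 : 0 ≤ mn T g) (h1 : mn T g ≤ γ) (y : Fin n → ℝ)
    (hy : ∀ i ∈ T, y i = g i) (hyl : y l = γ) :
    vr (insert l T) y ≤ vr T g + ((m : ℝ) / (m + 1)) * γ *
      (if T.Nonempty then γ - mn T g else 0) := by
  unfold vr
  rw [Finset.sum_insert hl, Finset.sum_insert hl, Finset.card_insert_of_notMem hl,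
    Finset.sum_congr rfl hy, hyl,
    Finset.sum_congr rfl (fun i hi => by rw [hy i hi] : ∀ i ∈ T, y i ^ 2 = g i ^ 2)]
  rcases T.eq_empty_or_nonempty with he | hne
  · rw [he]; simp
  · rw [if_pos hne]
    have hc : (0 : ℝ) < T.card := by exact_mod_cast hne.card_pos
    have hs : ∑ i ∈ T, g i = T.card * mn T g := by
      unfold mn; field_simp
    rw [hs]
    push_cast
    set b : ℝ := (T.card : ℝ) with hb
    set M := mn T g with hM
    have e1 : γ ^ 2 + ∑ i ∈ T, g i ^ 2 - (γ + b * M) ^ 2 / (b + 1) =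
        ∑ i ∈ T, g i ^ 2 - (b * M) ^ 2 / b + (b / (b + 1)) * (γ - M) ^ 2 := by
      field_simp
      ring
    rw [e1]
    have hmb : b ≤ (m : ℝ) := by rw [hb]; exact_mod_cast hm
    have hm0 : (0 : ℝ) < m := lt_of_lt_of_le hc hmb
    have e2 : b / (b + 1) ≤ (m : ℝ) / (m + 1) := by
      rw [div_le_div_iff₀ (by linarith) (by linarith)]
      nlinarith
    have e3 : (γ - M) ^ 2 ≤ γ * (γ - M) := by nlinarith
    have e4 : 0 ≤ γ * (γ - M) := mul_nonneg (by linarith) (by linarith)
    have e5 : (b / (b + 1)) * (γ - M) ^ 2 ≤ ((m : ℝ) / (m + 1)) * (γ * (γ - M)) :=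
      mul_le_mul e2 e3 (sq_nonneg _) (by positivity)
    linarith [e5, mul_assoc ((m : ℝ) / (m + 1)) γ (γ - M)]

/-- removal of the last vertex -/
theorem top_step {w : Finset (Fin n) → ℝ} (hw : ∀ B, 0 ≤ w B) {S : Finset (Fin n)} (hS : S.Nonempty)
    {l : Fin n} (hl : l ∉ S) (ht : Top w S l) {μ : ℝ} (h : OneOn w (insert l S) μ) :
    OneOn w S μ := by
  obtain ⟨r, hr, hmd⟩ := ht
  have hmdS : Md w S r := by
    intro B hB i hi k hk j hj hjB
    exact hmd B hB i (Finset.mem_inter.mpr ⟨(Finset.mem_inter.mp hi).1,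
      Finset.mem_insert_of_mem (Finset.mem_inter.mp hi).2⟩) k
      (Finset.mem_inter.mpr ⟨(Finset.mem_inter.mp hk).1,
      Finset.mem_insert_of_mem (Finset.mem_inter.mp hk).2⟩) j (Finset.mem_insert_of_mem hj) hjB
  refine oneOn_of hS ?_
  by_cases hne : ∃ y, ZS S y ∧ y ≠ 0
  swap
  · push Not at hne
    intro y hy
    rw [hne y hy]
    have e : en w S (0 : Fin n → ℝ) 0 = 0 := by unfold en; simp
    rw [e]; simp
  obtain ⟨μ', g, hμ, hgZ, hg0, hgM, hgL, hm⟩ := mono_eig hw hmdS hne
  suffices hle : μ ≤ μ' by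
    intro y hy
    exact le_trans (mul_le_mul_of_nonneg_right hle (Finset.sum_nonneg fun i _ => sq_nonneg _))
      (hm y hy)
  -- the maximum
  obtain ⟨t, htS, htmax⟩ := Finset.exists_max_image S g hS
  set γ := g t with hγ
  have hlg : g l = 0 := hgZ.1 l hl
  have hsS : ∑ i ∈ S, g i = 0 := by
    rw [← hgZ.2]
    exact Finset.sum_subset (Finset.subset_univ S) fun i _ hi => hgZ.1 i hi
  have hsS2 : ∑ i ∈ S, g i ^ 2 = ∑ i, g i ^ 2 :=
    Finset.sum_subset (Finset.subset_univ S) fun i _ hi => by rw [hgZ.1 i hi]; ring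
  have hgpos : 0 < ∑ i, g i ^ 2 := by
    obtain ⟨i, hi⟩ := Function.ne_iff.mp hg0
    exact Finset.sum_pos' (fun j _ => sq_nonneg _) ⟨i, Finset.mem_univ i, by
      have : g i ≠ 0 := hi
      positivity⟩
  have hcS : (0 : ℝ) < S.card := by exact_mod_cast hS.card_pos
  have hγ0 : 0 ≤ γ := by
    have h1 : mn S g ≤ γ := mn_le hS htmax
    have h2 : mn S g = 0 := by unfold mn; rw [hsS, zero_div]
    linarith
  -- the test function
  set y : Fin n → ℝ := fun i => if i = l then γ else g i with hy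
  have hyl : y l = γ := if_pos rfl
  have hyS : ∀ i ∈ S, y i = g i := fun i hi => if_neg (fun (e : i = l) => hl (e ▸ hi))
  have h1 := h y
  have hv : vr (insert l S) y = ∑ i, g i ^ 2 + ((S.card : ℝ) / (S.card + 1)) * γ ^ 2 := by
    unfold vr
    rw [Finset.sum_insert hl, Finset.sum_insert hl, Finset.card_insert_of_notMem hl,
      Finset.sum_congr rfl hyS, hyl,
      Finset.sum_congr rfl (fun i hi => by rw [hyS i hi] : ∀ i ∈ S, y i ^ 2 = g i ^ 2), hsS, hsS2]
    push_cast
    field_simp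
    ring
  -- blocks through `l`
  have hkey : ∀ B : Finset (Fin n), w B * vr (B ∩ insert l S) y ≤ w B * vr (B ∩ S) g +
      ((S.card : ℝ) / (S.card + 1)) * γ * (w B * (if t ∈ B ∩ S then g t - mn (B ∩ S) g else 0)) := by
    intro B
    by_cases hB : w B = 0
    · rw [hB]; simp
    have hR : 0 ≤ ((S.card : ℝ) / (S.card + 1)) * γ *
        (if t ∈ B ∩ S then g t - mn (B ∩ S) g else 0) := by
      refine mul_nonneg (mul_nonneg (by positivity) hγ0) ?_
      by_cases h3 : t ∈ B ∩ S
      · rw [if_pos h3]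
        have := mn_le ⟨t, h3⟩ (fun i hi => htmax i (Finset.mem_inter.mp hi).2)
        linarith
      · rw [if_neg h3]
    suffices hs : vr (B ∩ insert l S) y ≤ vr (B ∩ S) g + ((S.card : ℝ) / (S.card + 1)) * γ *
        (if t ∈ B ∩ S then g t - mn (B ∩ S) g else 0) by
      have := mul_le_mul_of_nonneg_left hs (hw B)
      linarith [this, mul_add (w B) (vr (B ∩ S) g) (((S.card : ℝ) / (S.card + 1)) * γ *
        (if t ∈ B ∩ S then g t - mn (B ∩ S) g else 0)),
        mul_left_comm (w B) (((S.card : ℝ) / (S.card + 1)) * γ)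
        (if t ∈ B ∩ S then g t - mn (B ∩ S) g else 0)]
    by_cases hlB : l ∈ B
    · rw [Finset.inter_insert_of_mem hlB]
      have hlT : l ∉ B ∩ S := fun h => hl (Finset.mem_inter.mp h).2
      have hcard : (B ∩ S).card ≤ S.card := Finset.card_le_card Finset.inter_subset_right
      by_cases hT : (B ∩ S).Nonempty
      · -- vertices of `S` outside of `B` are below the vertices of `B ∩ S`
        have hlow : ∀ i ∈ B ∩ S, ∀ j ∈ S, j ∉ B → g j ≤ g i := by
          intro i hi j hj hjB
          have hiS := (Finset.mem_inter.mp hi).2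
          have hiB := (Finset.mem_inter.mp hi).1
          have h3 := (hmd B hB l (Finset.mem_inter.mpr ⟨hlB, Finset.mem_insert_self l S⟩) i
            (Finset.mem_inter.mpr ⟨hiB, Finset.mem_insert_of_mem hiS⟩) j
            (Finset.mem_insert_of_mem hj) hjB).2 (hr j hj)
          exact hgM j hj i hiS h3
        have hmn0 : 0 ≤ mn (B ∩ S) g := by
          by_contra hneg
          push Not at hneg
          -- all values outside are at most the mean
          have h4 : ∀ j ∈ S \ B, g j ≤ mn (B ∩ S) g := fun j hj =>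
            le_mn hT fun i hi => hlow i hi j (Finset.mem_sdiff.mp hj).1 (Finset.mem_sdiff.mp hj).2
          have h5 : ∑ j ∈ S \ B, g j ≤ 0 := Finset.sum_nonpos fun j hj =>
            le_trans (h4 j hj) hneg.le
          have h6 : ∑ i ∈ B ∩ S, g i < 0 := by
            have hc : (0 : ℝ) < (B ∩ S).card := by exact_mod_cast hT.card_pos
            have : ∑ i ∈ B ∩ S, g i = (B ∩ S).card * mn (B ∩ S) g := by
              unfold mn; field_simp
            rw [this]
            exact mul_neg_of_pos_of_neg hc hneg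
          have h7 : ∑ i ∈ S, g i = ∑ i ∈ B ∩ S, g i + ∑ j ∈ S \ B, g j := by
            rw [Finset.inter_comm]
            exact (Finset.sum_inter_add_sum_sdiff S B g).symm
          linarith
        have hmn1 : mn (B ∩ S) g ≤ γ := mn_le hT fun i hi => htmax i (Finset.mem_inter.mp hi).2
        have h8 := vr_insert hlT hcard hmn0 hmn1 y (fun i hi => hyS i (Finset.mem_inter.mp hi).2) hyl
        rw [if_pos hT] at h8
        by_cases h9 : t ∈ B ∩ S
        · rw [if_pos h9]; exact h8
        · -- then `g` is constant on `B ∩ S`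
          have h10 : t ∉ B := fun h => h9 (Finset.mem_inter.mpr ⟨h, htS⟩)
          have h11 : γ ≤ mn (B ∩ S) g := le_mn hT fun i hi => hlow i hi t htS h10
          have h12 : γ - mn (B ∩ S) g = 0 := by linarith
          rw [h12] at h8
          rw [if_neg h9]
          exact h8
      · rw [Finset.not_nonempty_iff_eq_empty] at hT
        rw [hT]
        have e1 : vr (insert l (∅ : Finset (Fin n))) y = 0 := by
          unfold vr
          simp
        rw [e1]
        have e2 : vr (∅ : Finset (Fin n)) g = 0 := by unfold vr; simp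
        rw [e2]
        simp
    · have e1 : B ∩ insert l S = B ∩ S := by
        ext i
        simp only [Finset.mem_inter, Finset.mem_insert]
        constructor
        · rintro ⟨h3, h4 | h4⟩
          · exact absurd (h4 ▸ h3) hlB
          · exact ⟨h3, h4⟩
        · rintro ⟨h3, h4⟩
          exact ⟨h3, Or.inr h4⟩
      rw [e1]
      have e2 : vr (B ∩ S) y = vr (B ∩ S) g := by
        unfold vr
        rw [Finset.sum_congr rfl (fun i hi => hyS i (Finset.mem_inter.mp hi).2),
          Finset.sum_congr rfl (fun i hi => by rw [hyS i (Finset.mem_inter.mp hi).2] :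
            ∀ i ∈ B ∩ S, y i ^ 2 = g i ^ 2)]
      rw [e2]
      linarith
  have hsum : ∑ B : Finset (Fin n), w B * vr (B ∩ insert l S) y ≤
      μ' * ∑ i, g i ^ 2 + ((S.card : ℝ) / (S.card + 1)) * γ * (μ' * γ) := by
    calc ∑ B : Finset (Fin n), w B * vr (B ∩ insert l S) y
        ≤ ∑ B : Finset (Fin n), (w B * vr (B ∩ S) g + ((S.card : ℝ) / (S.card + 1)) * γ *
          (w B * (if t ∈ B ∩ S then g t - mn (B ∩ S) g else 0))) :=
          Finset.sum_le_sum fun B _ => hkey B
      _ = en w S g g + ((S.card : ℝ) / (S.card + 1)) * γ * Lg w S g t := by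
          rw [Finset.sum_add_distrib, ← Finset.mul_sum, en_self]
          rfl
      _ = μ' * ∑ i, g i ^ 2 + ((S.card : ℝ) / (S.card + 1)) * γ * (μ' * γ) := by
          rw [hgL t]
          congr 1
          unfold en
          rw [Finset.mul_sum]
          exact Finset.sum_congr rfl fun i _ => by rw [hgL i]; ring
  rw [hv] at h1
  have h2 : 0 < ∑ i, g i ^ 2 + ((S.card : ℝ) / (S.card + 1)) * γ ^ 2 := by positivity
  have h3 : μ * (∑ i, g i ^ 2 + ((S.card : ℝ) / (S.card + 1)) * γ ^ 2) ≤
      μ' * (∑ i, g i ^ 2 + ((S.card : ℝ) / (S.card + 1)) * γ ^ 2) := by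
    calc _ ≤ _ := h1
      _ ≤ _ := hsum
      _ = _ := by ring
  exact le_of_mul_le_mul_right h3 h2

end Pool.Agent.UTI
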